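import Pool.Agent.helper65.Cat.Final
import Pool.Agent.helper65.Cat.Comp

/-!
# A CAT(0) group whose boundary has infinite linearly controlled dimension

Negative answer to Q1: there are a group `G` acting geometrically on a proper CAT(0) space `X` and a
base point `x₀` such that `(∂X, d̄_{x₀})` has infinite linearly controlled dimension.
-/

namespace Pool.Agent.Results.MP_a015bb_gt.InfiniteLinDim

open Pool.Agent.helper65.Cat

theorem result : ∃ (X G : Type) (_ : MetricSpace X) (_ : Group G) (_ : MulAction G X),
    ProperSpace X ∧ IsCAT0 X ∧ IsGeometric G X ∧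
    ∃ x₀ : X, ∀ n : ℕ, ¬ LinDimLE (Boundary X x₀) n :=
  ⟨TX par.act.toPiece, Grp par.act, inferInstance, inferInstance, inferInstance,
    tx_proper par.act.compact, tx_stewart.isCAT0, grp_isGeometric par.act, par.x₀, not_linDimLE⟩

end Pool.Agent.Results.MP_a015bb_gt.InfiniteLinDim
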